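import Mathlib
import Pool.Agent.H320R3.Setup15
import Pool.Agent.H320R3.CenterKills

set_option autoImplicit false

/-!
# Diagonal representations `diag (ω ^ x₁, …, ω ^ x_n)` of the absolute Galois group of `ℚ` in
`PGL_n`, and the vanishing of the cohomology when `-1` acts as `-1`

The lemmas on the cyclotomic character are those of `Pool.Agent.H320R3.Proof15`, copied here to
keep the imports small.
-/

open CategoryTheory TensorProduct Matrix
open scoped MatrixGroups

namespace Pool.Agent.Y799.SLn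

open Pool.Agent.H320R3 Pool.Agent.H320R3.Setup15

noncomputable section

/-! ### The mod `p` cyclotomic character -/

section Cyclotomic

variable (p : ℕ) [Fact p.Prime] (k : Type) [Field k] [CharP k p]

lemma omega_spec (σ : GQ) : ∃ n : ℕ, (∀ t : Qbar, t ^ p = 1 → σ t = t ^ n) ∧
    ((omega p k σ : kˣ) : k) = (n : k) := by
  have hne : ∀ i : ℕ, NeZero ((p ^ i : ℕ) : Qbar) := fun i =>
    ⟨by exact_mod_cast pow_ne_zero i (Fact.out : p.Prime).ne_zero⟩
  have hinst : ∀ i, HasEnoughRootsOfUnity Qbar (p ^ i) := fun i => inferInstance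
  set a : ℤ_[p] := ((cyclotomicCharacter Qbar p) (σ : Qbar ≃+* Qbar)).val with ha
  refine ⟨(PadicInt.toZModPow 1 a).val, ?_, ?_⟩
  · intro t ht
    have := cyclotomicCharacter.spec p (n := 1) (σ : Qbar ≃+* Qbar) t (by rw [pow_one]; exact ht)
    exact this
  · have h1 : a - (((PadicInt.toZModPow 1 a).val : ℕ) : ℤ_[p]) ∈
        RingHom.ker (PadicInt.toZModPow (p := p) 1) := by
      rw [RingHom.mem_ker, map_sub, map_natCast, ZMod.natCast_val, ZMod.cast_id, sub_self]
    rw [PadicInt.ker_toZModPow, Ideal.mem_span_singleton, pow_one] at h1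
    obtain ⟨c, hc⟩ := h1
    have h2 : PadicInt.toZMod a = (((PadicInt.toZModPow 1 a).val : ℕ) : ZMod p) := by
      have h3 : a = (((PadicInt.toZModPow 1 a).val : ℕ) : ℤ_[p]) + p * c := by
        rw [← hc]; ring
      conv_lhs => rw [h3]
      rw [map_add, map_mul, map_natCast, map_natCast]
      simp
    change (ZMod.castHom (dvd_refl p) k) (PadicInt.toZMod a) = _
    rw [h2, map_natCast]

omit [Fact p.Prime] in
variable {p} in
lemma cast_one_of_dvd (hp : 1 ≤ p) {n : ℕ} (h : p ∣ n + (p - 1)) : (n : k) = 1 := by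
  have h1 : ((n + (p - 1) : ℕ) : k) = 0 := (CharP.cast_eq_zero_iff k p _).2 h
  rw [Nat.cast_add, Nat.cast_sub hp, CharP.cast_eq_zero k p] at h1
  push_cast at h1
  linear_combination h1

lemma exists_zeta : ∃ z : Qbar, IsPrimitiveRoot z p := by
  have : NeZero ((p : ℕ) : Qbar) := ⟨by exact_mod_cast (Fact.out : p.Prime).ne_zero⟩
  exact HasEnoughRootsOfUnity.exists_primitiveRoot Qbar p

variable {p}

/-- complex conjugation acts by `-1` -/
lemma omega_conj {c : GQ} (hc : IsComplexConj c) : omega p k c = -1 := by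
  obtain ⟨ι, hι⟩ := hc
  obtain ⟨n, h1, h2⟩ := omega_spec p k c
  obtain ⟨z, hz⟩ := exists_zeta p
  have h3 := h1 z hz.pow_eq_one
  have h4 := hι z
  rw [h3, map_pow] at h4
  have hnorm : ‖ι z‖ = 1 := by
    have h5 : (ι z) ^ p = 1 := by rw [← map_pow, hz.pow_eq_one, map_one]
    exact Complex.norm_eq_one_of_pow_eq_one h5 (Fact.out : p.Prime).ne_zero
  have h6 : (starRingEnd ℂ) (ι z) * ι z = 1 := by
    rw [← Complex.normSq_eq_conj_mul_self, Complex.normSq_eq_norm_sq, hnorm]
    norm_num
  have h7 : ι (z ^ (n + 1)) = 1 := by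
    rw [map_pow, pow_succ, h4, h6]
  have h8 : z ^ (n + 1) = 1 := ι.injective (by rw [h7, map_one])
  have h9 : p ∣ n + 1 := (hz.pow_eq_one_iff_dvd _).1 h8
  have h10 : ((n + 1 : ℕ) : k) = 0 := (CharP.cast_eq_zero_iff k p _).2 h9
  apply Units.ext
  rw [h2, Units.val_neg, Units.val_one]
  push_cast at h10
  linear_combination h10

/-- elements fixing the `p`-th roots of unity are in the kernel -/
lemma omega_of_fix {σ : GQ} {z : Qbar} (hz : IsPrimitiveRoot z p) (h : σ z = z) :
    omega p k σ = 1 := by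
  obtain ⟨n, h1, h2⟩ := omega_spec p k σ
  have h3 := h1 z hz.pow_eq_one
  rw [h] at h3
  have hp : p.Prime := Fact.out
  have h4 : z ^ (n + (p - 1)) = 1 := by
    rw [pow_add, ← h3, ← pow_succ', Nat.sub_add_cancel hp.one_le, hz.pow_eq_one]
  have h5 : p ∣ n + (p - 1) := (hz.pow_eq_one_iff_dvd _).1 h4
  apply Units.ext
  rw [h2, Units.val_one]
  exact cast_one_of_dvd k hp.one_le h5

lemma isOpen_omega : IsOpen ((omega p k).ker : Set GQ) := by
  obtain ⟨z, hz⟩ := exists_zeta p
  have hint : IsIntegral ℚ z := (hz.isIntegral (Fact.out : p.Prime).pos).tower_top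
  have : FiniteDimensional ℚ (IntermediateField.adjoin ℚ {z}) :=
    IntermediateField.adjoin.finiteDimensional hint
  have h1 := IntermediateField.fixingSubgroup_isOpen (IntermediateField.adjoin ℚ {z})
  refine Subgroup.isOpen_mono (H₁ := (IntermediateField.adjoin ℚ {z}).fixingSubgroup) ?_ h1
  intro σ hσ
  rw [MonoidHom.mem_ker]
  refine omega_of_fix k hz ?_
  rw [IntermediateField.mem_fixingSubgroup_iff] at hσ
  exact hσ z (IntermediateField.mem_adjoin_simple_self ℚ z)

/-- `ω` is unramified outside `p` -/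
lemma omega_unramified {l : ℕ} (hl : l.Prime) (hlp : l ≠ p) {A : ValuationSubring Qbar}
    (hA : Above l A) {σ : GQ} (hσ : σ ∈ inertia A) : omega p k σ = 1 := by
  obtain ⟨τ, hτ, rfl⟩ := hσ
  obtain ⟨n, h1, h2⟩ := omega_spec p k ((A.decompositionSubgroup ℚ).subtype τ)
  obtain ⟨z, hz⟩ := exists_zeta p
  have hp : p.Prime := Fact.out
  have hzA : z ∈ A := by
    rcases A.mem_or_inv_mem z with h | h
    · exact h
    · have h3 : z = (z⁻¹) ^ (p - 1) := by
        have h4 : z ^ (p - 1) * z = 1 := by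
          rw [← pow_succ, Nat.sub_add_cancel hp.one_le, hz.pow_eq_one]
        rw [inv_pow]
        exact eq_inv_of_mul_eq_one_right h4
      rw [h3]
      exact pow_mem h _
  let zA : A := ⟨z, hzA⟩
  set r : IsLocalRing.ResidueField A := IsLocalRing.residue A zA with hr
  have h3 : IsLocalRing.residue A (τ • zA) = r := by
    have h4 : MulSemiringAction.toRingAut (A.decompositionSubgroup ℚ)
        (IsLocalRing.ResidueField A) τ = 1 := hτ
    have h5 := congrArg (fun f => f r) h4
    change τ • r = r at h5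
    rw [hr, ← IsLocalRing.ResidueField.residue_smul] at h5
    exact h5
  have h4 : τ • zA = zA ^ n := by
    apply Subtype.ext
    have := h1 z hz.pow_eq_one
    exact this
  rw [h4, map_pow] at h3
  have h5 : r ^ p = 1 := by
    rw [hr, ← map_pow]
    have : zA ^ p = 1 := Subtype.ext hz.pow_eq_one
    rw [this, map_one]
  have h6 : orderOf r = 1 ∨ orderOf r = p := (Nat.dvd_prime hp).1 (orderOf_dvd_of_pow_eq_one h5)
  have hlr : ((l : ℕ) : IsLocalRing.ResidueField A) = 0 := by
    have h7 : ((l : ℕ) : A) ∈ IsLocalRing.maximalIdeal A := by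
      rw [← ValuationSubring.coe_mem_nonunits_iff]
      exact_mod_cast hA
    have h8 := (IsLocalRing.residue_eq_zero_iff _).2 h7
    rwa [map_natCast] at h8
  rcases h6 with h6 | h6
  · exfalso
    rw [orderOf_eq_one_iff] at h6
    have h7 : ∑ i ∈ Finset.range p, zA ^ i = 0 := by
      apply Subtype.ext
      have := hz.geom_sum_eq_zero hp.one_lt
      push_cast
      exact this
    have h8 := congrArg (IsLocalRing.residue A) h7
    rw [map_sum, map_zero] at h8
    simp only [map_pow] at h8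
    rw [← hr, h6] at h8
    simp only [one_pow, Finset.sum_const, Finset.card_range, nsmul_eq_mul, mul_one] at h8
    have h9 : IsCoprime (l : ℤ) (p : ℤ) := Nat.isCoprime_iff_coprime.2 ((Nat.coprime_primes hl hp).2 hlp)
    obtain ⟨a, b, hab⟩ := h9
    have h10 := congrArg (fun x : ℤ => (x : IsLocalRing.ResidueField A)) hab
    push_cast at h10
    rw [hlr, h8] at h10
    simp at h10
  · have h7 : r ^ (n + (p - 1)) = 1 := by
      rw [pow_add, h3, ← pow_succ', Nat.sub_add_cancel hp.one_le, h5]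
    have h8 := orderOf_dvd_of_pow_eq_one h7
    rw [h6] at h8
    apply Units.ext
    rw [h2, Units.val_one]
    exact cast_one_of_dvd k hp.one_le h8

end Cyclotomic


/-! ### Traces -/

section Trace

variable {k V : Type} [Field k] [AddCommGroup V] [Module k V] [Module.Finite k V]

open Module.Basis in
/-- the trace is the sum of the traces on an invariant subspace and on the quotient -/
theorem trace_eq_add (W : Submodule k V) (e : V →ₗ[k] V) (he : W ≤ W.comap e) :
    LinearMap.trace k V e =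
      LinearMap.trace k W (e.restrict he) + LinearMap.trace k (V ⧸ W) (W.mapQ W e he) := by
  classical
  let m := Module.Free.ChooseBasisIndex k W
  let bW : Module.Basis m k W := Module.Free.chooseBasis k W
  let n := Module.Free.ChooseBasisIndex k (V ⧸ W)
  let bQ : Module.Basis n k (V ⧸ W) := Module.Free.chooseBasis k (V ⧸ W)
  let b := sumQuot bW bQ
  let A : Matrix m m k := LinearMap.toMatrix bW bW (e.restrict he)
  let B : Matrix m n k := Matrix.of fun i l ↦
    ((sumQuot bW bQ).repr (e ((sumQuot bW bQ) (Sum.inr l)))) (Sum.inl i)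
  let D : Matrix n n k := LinearMap.toMatrix bQ bQ (W.mapQ W e he)
  suffices LinearMap.toMatrix b b e = Matrix.fromBlocks A B 0 D by
    rw [LinearMap.trace_eq_matrix_trace k b, this, LinearMap.trace_eq_matrix_trace k bW,
      LinearMap.trace_eq_matrix_trace k bQ]
    simp [Matrix.trace, Fintype.sum_sum_type, A, D]
  ext u v
  cases u with
  | inl i =>
    cases v with
    | inl k =>
      simp only [b, sumQuot_inl, Matrix.fromBlocks_apply₁₁, A, LinearMap.toMatrix_apply]
      apply sumQuot_repr_inl_of_mem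
    | inr l => simp [b, LinearMap.toMatrix_apply, Matrix.fromBlocks_apply₁₂, B]
  | inr j =>
    cases v with
    | inl k =>
      suffices W.mkQ (e (bW k)) = 0 by simp [LinearMap.toMatrix_apply, b, this]
      rw [← LinearMap.mem_ker, Submodule.ker_mkQ]
      exact he (Submodule.coe_mem (bW k))
    | inr l =>
      simp only [LinearMap.toMatrix_apply, sumQuot_repr_inr,
        Matrix.fromBlocks_apply₂₂, b, D]
      rw [← sumQuot_inr bW bQ l, W.mapQ_apply]
      simp

end Trace

/-! ### Diagonal matrices -/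

/-- Diagonal matrices. -/
noncomputable def diagN (n : ℕ) (k : Type) [Field k] : (Fin n → kˣ) →* GL (Fin n) k :=
  (Units.map (Matrix.diagonalRingHom (Fin n) k).toMonoidHom).comp
    (MulEquiv.piUnits (M := fun _ : Fin n => k)).symm.toMonoidHom

lemma diagN_coe {n : ℕ} (k : Type) [Field k] (u : Fin n → kˣ) :
    (diagN n k u : Matrix (Fin n) (Fin n) k) = Matrix.diagonal fun i => ((u i : kˣ) : k) := rfl

lemma diagN_inv_coe {n : ℕ} (k : Type) [Field k] (u : Fin n → kˣ) :
    (((diagN n k u)⁻¹ : GL (Fin n) k) : Matrix (Fin n) (Fin n) k) =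
      Matrix.diagonal fun i => (((u i)⁻¹ : kˣ) : k) := by
  rw [← map_inv, diagN_coe]
  rfl

lemma conj_diag_apply {n : ℕ} (k : Type) [Field k] (u : Fin n → kˣ)
    (X : Matrix (Fin n) (Fin n) k) (i j : Fin n) :
    conjMat (diagN n k u) X i j = (u i : k) * X i j * (((u j)⁻¹ : kˣ) : k) := by
  unfold conjMat
  rw [LinearMap.comp_apply, LinearMap.mulLeft_apply, LinearMap.mulRight_apply, diagN_coe,
    diagN_inv_coe, Matrix.diagonal_mul, Matrix.mul_diagonal]
  ring

lemma trace_conj_diag {n : ℕ} (k : Type) [Field k] (u : Fin n → kˣ) :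
    LinearMap.trace k (Matrix (Fin n) (Fin n) k) (conjMat (diagN n k u)) =
      (∑ i, (u i : k)) * ∑ j, (((u j)⁻¹ : kˣ) : k) := by
  rw [LinearMap.trace_eq_matrix_trace k (Matrix.stdBasis k (Fin n) (Fin n)), Matrix.trace,
    Fintype.sum_prod_type, Finset.sum_mul_sum]
  refine Finset.sum_congr rfl fun i _ => Finset.sum_congr rfl fun j _ => ?_
  rw [Matrix.diag_apply, LinearMap.toMatrix_apply, Matrix.stdBasis_eq_single]
  have h : conjMat (diagN n k u) (Matrix.single i j 1) =
      ((u i : k) * (((u j)⁻¹ : kˣ) : k)) • Matrix.single i j 1 := by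
    ext a b
    rw [conj_diag_apply, Matrix.smul_apply, smul_eq_mul]
    by_cases hab : i = a ∧ j = b
    · obtain ⟨rfl, rfl⟩ := hab
      simp
    · rw [Matrix.single_apply_of_ne _ _ _ _ _ hab]
      ring
  rw [h, map_smul, ← Matrix.stdBasis_eq_single, Module.Basis.repr_self]
  simp

lemma conj_one {n : ℕ} {k : Type} [Field k] (g : GL (Fin n) k) :
    conjMat g (1 : Matrix (Fin n) (Fin n) k) = 1 := by
  simp [conjMat]

lemma trace_Ad_diag {n : ℕ} (hn : 0 < n) (k : Type) [Field k] (u : Fin n → kˣ) :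
    LinearMap.trace k (LiePGL n k) (Ad (diagN n k u)) =
      (∑ i, (u i : k)) * (∑ j, (((u j)⁻¹ : kˣ) : k)) - 1 := by
  have : Nonempty (Fin n) := ⟨⟨0, hn⟩⟩
  have he : Submodule.span k {(1 : Matrix (Fin n) (Fin n) k)} ≤
      (Submodule.span k {(1 : Matrix (Fin n) (Fin n) k)}).comap (conjMat (diagN n k u)) := by
    rw [Submodule.span_le, Set.singleton_subset_iff]
    simp only [SetLike.mem_coe, Submodule.mem_comap]
    rw [conj_one]
    exact Submodule.mem_span_singleton_self _
  have h := trace_eq_add (Submodule.span k {(1 : Matrix (Fin n) (Fin n) k)})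
    (conjMat (diagN n k u)) he
  have h1 : (conjMat (diagN n k u)).restrict he = LinearMap.id := by
    ext1 ⟨w, hw⟩
    obtain ⟨c, rfl⟩ := Submodule.mem_span_singleton.1 hw
    apply Subtype.ext
    show conjMat (diagN n k u) (c • 1) = c • 1
    rw [map_smul, conj_one]
  rw [h1, LinearMap.trace_id, finrank_span_singleton one_ne_zero, Nat.cast_one,
    trace_conj_diag] at h
  rw [h]
  show _ = 1 + LinearMap.trace k (LiePGL n k) (Ad (diagN n k u)) - 1
  ring

lemma Ad_congr {n : ℕ} {k : Type} [Field k] {g h : GL (Fin n) k}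
    (hgh : ProjGenLinGroup.mk g = ProjGenLinGroup.mk h) : Ad g = Ad h := by
  have h1 : ProjGenLinGroup.mk (h⁻¹ * g) = 1 := by
    rw [map_mul, map_inv, hgh, inv_mul_cancel]
  rw [ProjGenLinGroup.mk_eq_one, Matrix.GeneralLinearGroup.center_eq_range_scalar] at h1
  obtain ⟨u, hu⟩ := h1
  have hg : g = h * Matrix.GeneralLinearGroup.scalar (Fin n) u := by
    rw [hu, mul_inv_cancel_left]
  have h2 : conjMat g = conjMat h := by
    ext1 X
    simp only [conjMat, LinearMap.comp_apply, LinearMap.mulLeft_apply, LinearMap.mulRight_apply]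
    have hcomm : Matrix.GeneralLinearGroup.scalar (Fin n) u * h⁻¹ =
        h⁻¹ * Matrix.GeneralLinearGroup.scalar (Fin n) u := by
      apply Units.ext
      rw [Units.val_mul, Units.val_mul, Matrix.GeneralLinearGroup.coe_scalar]
      exact (Matrix.scalar_commute _ (fun r => Commute.all _ _) _).eq
    have hginv : g⁻¹ = h⁻¹ * (Matrix.GeneralLinearGroup.scalar (Fin n) u)⁻¹ := by
      rw [hg, _root_.mul_inv_rev]
      rw [← map_inv]
      apply Units.ext
      rw [Units.val_mul, Units.val_mul, Matrix.GeneralLinearGroup.coe_scalar]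
      exact (Matrix.scalar_commute _ (fun r => Commute.all _ _) _).eq
    rw [hginv, hg, Units.val_mul, Units.val_mul, ← map_inv,
      Matrix.GeneralLinearGroup.coe_scalar, Matrix.GeneralLinearGroup.coe_scalar]
    have hu' : (u : k) ≠ 0 := u.ne_zero
    have e1 : ∀ c : k, Matrix.scalar (Fin n) c = c • (1 : Matrix (Fin n) (Fin n) k) := by
      intro c
      rw [Matrix.scalar_apply, Matrix.smul_one_eq_diagonal]
    rw [e1, e1]
    simp only [Matrix.mul_smul, Matrix.smul_mul, Matrix.mul_one, smul_smul]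
    have e2 : ((u⁻¹ : kˣ) : k) * (u : k) = 1 := by simp
    rw [e2, one_smul]
  unfold Ad
  simp only [h2]


/-! ### The representations -/

/-- The representation `σ ↦` class of `diag (ω(σ) ^ x₁, …, ω(σ) ^ x_n)` in `PGL_n(k)`. -/
noncomputable def rdiag (p : ℕ) [Fact p.Prime] (k : Type) [Field k] [CharP k p] {n : ℕ}
    (x : Fin n → ℤ) : GQ →* PGL(n, k) :=
  ProjGenLinGroup.mk.comp ((diagN n k).comp (MonoidHom.pi fun i => (omega p k) ^ (x i)))

lemma rdiag_apply (p : ℕ) [Fact p.Prime] (k : Type) [Field k] [CharP k p] {n : ℕ}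
    (x : Fin n → ℤ) (σ : GQ) :
    rdiag p k x σ = ProjGenLinGroup.mk (diagN n k fun i => (omega p k σ) ^ (x i)) := rfl

lemma rdiag_of_omega {p : ℕ} [Fact p.Prime] {k : Type} [Field k] [CharP k p] {n : ℕ}
    (x : Fin n → ℤ) {σ : GQ} (h : omega p k σ = 1) : rdiag p k x σ = 1 := by
  rw [rdiag_apply, h]
  have : (fun i : Fin n => (1 : kˣ) ^ (x i)) = 1 := by
    funext i
    rw [_root_.one_zpow]
    rfl
  rw [this, map_one, map_one]

/-- The number of even coordinates minus the number of odd coordinates. -/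
def signSum {n : ℕ} (x : Fin n → ℤ) : ℤ := ∑ i, if Even (x i) then 1 else -1

lemma neg_one_zpow_coe (k : Type) [Field k] (m : ℤ) :
    (((-1 : kˣ) ^ m : kˣ) : k) = ((if Even m then 1 else -1 : ℤ) : k) := by
  by_cases h : Even m
  · rw [if_pos h, h.neg_one_zpow]
    simp
  · rw [if_neg h]
    rw [Int.not_even_iff_odd] at h
    rw [h.neg_one_zpow]
    simp

lemma isOdd_rdiag (p : ℕ) [Fact p.Prime] (k : Type) [Field k] [CharP k p] {n : ℕ} (hn0 : 0 < n)
    (hn : Even n) (x : Fin n → ℤ) (hx : (p : ℤ) ∣ signSum x) : IsOdd (rdiag p k x) := by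
  intro c hc g hg
  rw [rdiag_apply, omega_conj k hc] at hg
  rw [Ad_congr hg, trace_Ad_diag hn0]
  have h1 : ∑ i, (((-1 : kˣ) ^ x i : kˣ) : k) = ((signSum x : ℤ) : k) := by
    unfold signSum
    rw [Int.cast_sum]
    exact Finset.sum_congr rfl fun i _ => neg_one_zpow_coe k (x i)
  rw [h1, (CharP.intCast_eq_zero_iff k p _).2 hx, zero_mul]
  obtain ⟨m, rfl⟩ := hn
  have h2 : (m + m) / 2 = m := by omega
  rw [h2]
  push_cast
  ring

lemma hyp_rdiag (p : ℕ) [Fact p.Prime] (k : Type) [Field k] [CharP k p] {n : ℕ} (hn0 : 0 < n)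
    (hn : Even n) (x : Fin n → ℤ) (hreg : StronglyRegular x) (hx : (p : ℤ) ∣ signSum x) :
    Hypotheses p k x ∅ (rdiag p k x) := by
  refine ⟨hreg, by simp, ?_, isOdd_rdiag p k hn0 hn x hx, ?_, by simp, ?_⟩
  · refine Subgroup.isOpen_mono (H₁ := (omega p k).ker) ?_ (isOpen_omega k)
    intro σ hσ
    exact rdiag_of_omega x hσ
  · intro A _
    refine ⟨1, fun σ _ => ⟨diagN n k fun i => (omega p k σ) ^ (x i), ?_, ?_, fun _ => ⟨1, ?_⟩⟩⟩
    · rw [diagN_coe]
      exact Matrix.blockTriangular_diagonal _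
    · rw [inv_one, one_mul, mul_one]
      rfl
    · intro i
      rw [diagN_coe, Matrix.diagonal_apply_eq, one_mul]
  · intro l hl _ hlp A hA σ hσ
    exact rdiag_of_omega x (omega_unramified k hl hlp hA hσ)

/-! ### Vanishing -/

/-- `-1` as an element of `SL_n(R)`, `n` even. -/
def negOne (n : ℕ) (hn : Even n) (R : Type) [CommRing R] : SL(n, R) :=
  ⟨-1, by rw [Matrix.det_neg]; simp [hn.neg_one_pow]⟩

lemma negOne_mem_borel (n : ℕ) (hn : Even n) (R : Type) [CommRing R] :
    negOne n hn R ∈ borel n R := by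
  change Matrix.BlockTriangular (-1 : Matrix (Fin n) (Fin n) R) id
  exact blockTriangular_one.neg

lemma negOne_comm (n : ℕ) (hn : Even n) (R : Type) [CommRing R] (g : SL(n, R)) :
    g * negOne n hn R = negOne n hn R * g := by
  apply Subtype.ext
  change g.1 * (-1) = (-1) * g.1
  simp

lemma map_negOne (n : ℕ) (hn : Even n) {R S : Type} [CommRing R] [CommRing S] (f : R →+* S) :
    SpecialLinearGroup.map f (negOne n hn R) = negOne n hn S := by
  apply Subtype.ext
  change f.mapMatrix (-1) = -1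
  rw [map_neg, map_one]

lemma prod_neg_one_zpow {ι : Type} (s : Finset ι) (f : ι → ℤ) :
    ∏ i ∈ s, (-1 : ℚ) ^ f i = (-1) ^ (∑ i ∈ s, f i) := by
  classical
  induction s using Finset.induction_on with
  | empty => simp
  | insert a s ha ih =>
    rw [Finset.prod_insert ha, Finset.sum_insert ha, ih, zpow_add₀ (by norm_num)]

/-- `-1` acts as `-1`. -/
lemma negOne_act {n : ℕ} (hn : Even n) {V : Type} [AddCommGroup V] [Module ℚ V]
    {π : Representation ℚ SL(n, ℚ) V} {wt : Fin n → ℤ} (h : IsIrreducibleOfHighestWeight π wt)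
    (hwt : Odd (∑ i, wt i)) (v : V) : π (negOne n hn ℚ) v = -v := by
  obtain ⟨v₀, hv₀, hb⟩ := h.highest
  have h1 : π (negOne n hn ℚ) v₀ = -v₀ := by
    rw [hb _ (negOne_mem_borel n hn ℚ)]
    have h2 : ∀ i, (negOne n hn ℚ) i i = -1 := by
      intro i
      change (-1 : Matrix (Fin n) (Fin n) ℚ) i i = -1
      simp
    simp_rw [h2]
    rw [prod_neg_one_zpow, hwt.neg_one_zpow, neg_one_smul]
  let W : Submodule ℚ V := LinearMap.ker (π (negOne n hn ℚ) + LinearMap.id)
  have hW : ∀ w, w ∈ W ↔ π (negOne n hn ℚ) w = -w := by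
    intro w
    simp only [W, LinearMap.mem_ker, LinearMap.add_apply, LinearMap.id_apply]
    exact add_eq_zero_iff_eq_neg
  have hst : ∀ g, ∀ w ∈ W, π g w ∈ W := by
    intro g w hw
    rw [hW] at hw ⊢
    rw [← Module.End.mul_apply, ← map_mul, ← negOne_comm, map_mul, Module.End.mul_apply, hw,
      map_neg]
  rcases h.irreducible W hst with h3 | h3
  · exact absurd ((Submodule.mem_bot ℚ).1 (h3 ▸ (hW v₀).2 h1)) hv₀
  · exact (hW v).1 (h3 ▸ Submodule.mem_top)

/-- In characteristic different from `2`, all the cohomology vanishes when the sum of the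
coordinates of the highest weight is odd. -/
lemma vanishing {n : ℕ} (hn : Even n) {V : Type} [AddCommGroup V] [Module ℚ V]
    {π : Representation ℚ SL(n, ℚ) V} {wt : Fin n → ℤ} (h : IsIrreducibleOfHighestWeight π wt)
    (hwt : Odd (∑ i, wt i)) {M : Submodule ℤ V} (hM : IsStableLattice π M) (N : ℕ) (k : Type)
    [Field k] (h2 : (2 : k) ≠ 0) (i : ℕ) : Subsingleton (H hM N k i) := by
  have hmem : negOne n hn ℤ ∈ Gamma0 n N := by
    change SpecialLinearGroup.map (Int.castRingHom (ZMod N)) (negOne n hn ℤ) ∈ borel n (ZMod N)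
    rw [map_negOne]
    exact negOne_mem_borel n hn _
  refine H320R3.CenterKills.subsingleton_groupCohomology _ (⟨negOne n hn ℤ, hmem⟩ : Gamma0 n N)
    (fun g => Subtype.ext (negOne_comm n hn ℤ g)) ?_ (isUnit_iff_ne_zero.2 h2) i
  intro a
  have h1 : latAct hM N ⟨negOne n hn ℤ, hmem⟩ = -LinearMap.id := by
    ext m
    change π (SpecialLinearGroup.map (Int.castRingHom ℚ) (negOne n hn ℤ)) m.1 = _
    rw [map_negOne, negOne_act hn h hwt]
    simp
  change (latAct hM N ⟨negOne n hn ℤ, hmem⟩).baseChange k a = -a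
  rw [h1]
  simp

/-! ### Parity -/

lemma sum_rho (n : ℕ) : 2 * ∑ i, rho n i = (n : ℤ) * (n - 1) := by
  rcases Nat.eq_zero_or_pos n with rfl | hn
  · simp
  have h3 : ∑ i : Fin n, rho n i = ∑ i ∈ Finset.range n, ((n : ℤ) - 1 - i) := by
    rw [← Fin.sum_univ_eq_sum_range (fun i => (n : ℤ) - 1 - i)]
    rfl
  have h4 : ((∑ i ∈ Finset.range n, i : ℕ) : ℤ) * 2 = (n : ℤ) * (n - 1) := by
    have := Finset.sum_range_id_mul_two n
    have h5 : ((n - 1 : ℕ) : ℤ) = (n : ℤ) - 1 := by omega
    rw [← h5]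
    exact_mod_cast this
  rw [h3, Finset.sum_sub_distrib]
  simp only [Finset.sum_const, Finset.card_range, nsmul_eq_mul]
  push_cast at h4
  linarith

lemma sum_mod_four {ι : Type} (s : Finset ι) (x : ι → ℤ) :
    (4 : ℤ) ∣ 2 * ∑ i ∈ s, x i - (s.card - ∑ i ∈ s, if Even (x i) then 1 else -1) := by
  classical
  induction s using Finset.induction_on with
  | empty => simp
  | insert a s ha ih =>
    rw [Finset.sum_insert ha, Finset.sum_insert ha, Finset.card_insert_of_notMem ha]
    push_cast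
    by_cases h : Even (x a)
    · rw [if_pos h]
      obtain ⟨m, hm⟩ := h
      omega
    · rw [if_neg h]
      rw [Int.not_even_iff_odd] at h
      obtain ⟨m, hm⟩ := h
      omega

lemma odd_sum {n : ℕ} (hn : Even n) (x : Fin n → ℤ) (hx : signSum x % 4 = 2) :
    Odd (∑ i, (x i - rho n i)) := by
  have h1 := sum_mod_four (Finset.univ : Finset (Fin n)) x
  have h2 := sum_rho n
  rw [Finset.card_univ, Fintype.card_fin] at h1
  change (4 : ℤ) ∣ 2 * ∑ i, x i - (n - signSum x) at h1
  obtain ⟨m, hm⟩ := hn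
  have h3 : (4 : ℤ) ∣ (n : ℤ) * (n - 2) := by
    rw [hm]
    refine ⟨(m : ℤ) * (m - 1), ?_⟩
    push_cast
    ring
  have h4 : (n : ℤ) * (n - 1) = (n : ℤ) * (n - 2) + n := by ring
  rw [Finset.sum_sub_distrib, Int.odd_iff]
  omega

/-! ### Existence of weights -/

/-- A weight with `n / 2 + p` even and `n / 2 - p` odd coordinates. -/
def wt0 (p n : ℕ) (i : Fin n) : ℤ := if (i : ℕ) < n / 2 + p then -2 * (i : ℤ) else -2 * (i : ℤ) - 1

lemma wt0_regular (p n : ℕ) : StronglyRegular (wt0 p n) := by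
  intro i hi
  unfold wt0
  simp only
  push_cast
  split_ifs <;> omega

lemma wt0_signSum {p n : ℕ} (hn : Even n) (hpn : 2 * p ≤ n) : signSum (wt0 p n) = 2 * p := by
  have h1 : ∀ i : Fin n, (if Even (wt0 p n i) then (1 : ℤ) else -1) =
      if (i : ℕ) < n / 2 + p then 1 else -1 := by
    intro i
    unfold wt0
    by_cases h : (i : ℕ) < n / 2 + p
    · rw [if_pos h, if_pos h, if_pos ⟨-(i : ℤ), by ring⟩]
    · rw [if_neg h, if_neg h, if_neg]
      rw [Int.not_even_iff_odd]
      exact ⟨-(i : ℤ) - 1, by ring⟩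
  unfold signSum
  rw [Finset.sum_congr rfl fun i _ => h1 i,
    Fin.sum_univ_eq_sum_range (fun i => if i < n / 2 + p then (1 : ℤ) else -1)]
  have h2 : ∀ m : ℕ, ∑ i ∈ Finset.range m, (if i < n / 2 + p then (1 : ℤ) else -1) =
      if m ≤ n / 2 + p then (m : ℤ) else 2 * ((n / 2 + p : ℕ) : ℤ) - m := by
    intro m
    induction m with
    | zero => simp
    | succ m ih =>
      rw [Finset.sum_range_succ, ih]
      push_cast
      split_ifs <;> omega
  rw [h2]
  obtain ⟨m, hm⟩ := hn
  push_cast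
  split_ifs <;> omega

end

end Pool.Agent.Y799.SLn
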